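import Pool.Agent.Q134.RP6.Verts

/-!
# A triangulation of the real projective space of dimension 6 with 43 vertices

The universal cover is the complete centrally symmetric simplicial fan in `ℝ^7 = ℝ^8 / (1,…,1)`
whose rays are spanned by the indicator vectors of 86 subsets of an 8-element set (of sizes 1, 4, 7);
it has 10192 maximal cones.  It is not the face fan of a polytope obtained from a regular
triangulation: the two halves come from non-regular triangulations of the hypersimplex `Δ(6,2)`.
-/

set_option autoImplicit false

namespace Pool.Agent.Results.MP_b4345b_gt.FortyThreeVertices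

open Pool.Agent.Q134.Fan Pool.Agent.Q134.RP6

/-- There is a (geometric) simplicial complex with exactly 43 vertices whose polyhedron is
homeomorphic to the real projective space of dimension 6. -/
theorem result : ∃ (N : ℕ) (K : Geometry.SimplicialComplex ℝ (EuclideanSpace ℝ (Fin N))),
    K.vertices.ncard = 43 ∧
    Nonempty (K.space ≃ₜ Quot (fun x y : Metric.sphere (0 : EuclideanSpace ℝ (Fin 7)) 1 =>
      (x : EuclideanSpace ℝ (Fin 7)) = (y : EuclideanSpace ℝ (Fin 7)) ∨
        (x : EuclideanSpace ℝ (Fin 7)) = -(y : EuclideanSpace ℝ (Fin 7)))) :=
  ⟨128, cplx DD, ncard_vertices, main sep antip⟩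

end Pool.Agent.Results.MP_b4345b_gt.FortyThreeVertices
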